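import Mathlib

set_option autoImplicit false

/-! A Banach algebra with zero multiplication and a discontinuous linear functional on it. -/

open Filter Topology

namespace Pool.Agent.H696AC

/-- the Hilbert space `ℓ²`, to be equipped with the zero multiplication -/
def Z : Type := lp (fun _ : ℕ => ℂ) 2

noncomputable instance : NormedAddCommGroup Z := inferInstanceAs (NormedAddCommGroup (lp (fun _ : ℕ => ℂ) 2))

noncomputable instance instRing : NonUnitalNormedRing Z :=
  { (inferInstance : NormedAddCommGroup Z) with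
    mul := fun _ _ => 0
    left_distrib := fun _ _ _ => (add_zero 0).symm
    right_distrib := fun _ _ _ => (add_zero 0).symm
    zero_mul := fun _ => rfl
    mul_zero := fun _ => rfl
    mul_assoc := fun _ _ _ => rfl
    norm_mul_le := fun a b => by
      show ‖(0 : Z)‖ ≤ ‖a‖ * ‖b‖
      rw [norm_zero]; positivity }

noncomputable instance instNS : NormedSpace ℂ Z :=
  inferInstanceAs (NormedSpace ℂ (lp (fun _ : ℕ => ℂ) 2))

instance : CompleteSpace Z := inferInstanceAs (CompleteSpace (lp (fun _ : ℕ => ℂ) 2))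

lemma Z_mul (a b : Z) : a * b = 0 := rfl

instance : IsScalarTower ℂ Z Z := ⟨fun c a b => by
  show (c • a) * b = c • (a * b)
  rw [Z_mul, Z_mul, smul_zero]⟩

instance : SMulCommClass ℂ Z Z := ⟨fun c a b => by
  show c • (a * b) = a * (c • b)
  rw [Z_mul, Z_mul, smul_zero]⟩

/-- unit vectors -/
noncomputable def ev (n : ℕ) : lp (fun _ : ℕ => ℂ) 2 := lp.single 2 n (1 : ℂ)

lemma ev_indep : LinearIndependent ℂ ev := by
  rw [linearIndependent_iff']
  intro s g hg i hi
  have h1 : ((∑ j ∈ s, g j • ev j : lp (fun _ : ℕ => ℂ) 2) : ∀ _ : ℕ, ℂ) i = 0 := by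
    rw [hg]; rfl
  rw [lp.coeFn_sum, Finset.sum_apply, Finset.sum_eq_single i] at h1
  · simpa [ev] using h1
  · intro j _ hji
    simp [ev, hji, Pi.single_apply, hji.symm]
  · intro h; exact absurd hi h

lemma ev_norm (n : ℕ) : ‖ev n‖ = 1 := by
  unfold ev
  rw [lp.norm_single (by norm_num)]
  simp

/-- a discontinuous linear functional -/
lemma exists_disc : ∃ f : Z →ₗ[ℂ] ℂ, ¬ Continuous f := by
  let b := Module.Basis.span ev_indep
  let f0 : Submodule.span ℂ (Set.range ev) →ₗ[ℂ] ℂ := b.constr ℂ fun n => (n : ℂ)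
  obtain ⟨f, hf⟩ := LinearMap.exists_extend f0
  have hfn : ∀ n, f (ev n) = n := by
    intro n
    have h1 : f0 (b n) = n := by
      show b.constr ℂ (fun n => (n : ℂ)) (b n) = n
      rw [Module.Basis.constr_basis]
    have h2 : (f ∘ₗ (Submodule.span ℂ (Set.range ev)).subtype) (b n) = f0 (b n) := by rw [hf]
    rw [h1] at h2
    have h3 : ((b n : Submodule.span ℂ (Set.range ev)) : lp (fun _ : ℕ => ℂ) 2) = ev n :=
      congrArg Subtype.val (Module.Basis.span_apply ev_indep n)
    simpa [h3] using h2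
  refine ⟨f, fun hc => ?_⟩
  let F : lp (fun _ : ℕ => ℂ) 2 →L[ℂ] ℂ := ⟨f, hc⟩
  obtain ⟨n, hn⟩ := exists_nat_gt ‖F‖
  have h1 := F.le_opNorm (ev n)
  rw [ev_norm, mul_one] at h1
  have h2 : F (ev n) = n := hfn n
  rw [h2] at h1
  simp at h1
  linarith

end Pool.Agent.H696AC
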